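import Pool.Agent.helper50.PHN.Spec

/-!
# Project PHN (MP_f10000_nt), row PRI: products of two class indicators
-/

set_option autoImplicit false

namespace Pool.Agent.PHN

open Finset

theorem PRI_one (D : Sys) (s : Finset ℕ) (hs : ∀ p ∈ s, D.q0 ≤ p) : 1 ≤ ∏ p ∈ s, (1 + 2 * D.δ p) := by
  refine Finset.prod_induction _ (fun x : ℝ => 1 ≤ x) (fun a b ha hb => one_le_mul_of_one_le_of_one_le ha hb) le_rfl ?_
  intro p hp
  have := D.dpos p (hs p hp)
  linarith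

theorem PRI_gg (D : Sys) (n : ℕ) : 1 ≤ gg D.δ D.q0 n :=
  PRI_one D _ fun _ hp => (Finset.mem_filter.mp hp).2

theorem PRI_pf (a b : ℕ) (ha : a ≠ 0) (hb : b ≠ 0) : (Nat.lcm a b).primeFactors = a.primeFactors ∪ b.primeFactors := by
  ext p
  rw [Finset.mem_union, Nat.mem_primeFactors, Nat.mem_primeFactors, Nat.mem_primeFactors]
  constructor
  · rintro ⟨hp, h, -⟩
    have h2 : p ∣ a * b := h.trans (Nat.lcm_dvd_mul a b)
    rcases hp.dvd_mul.mp h2 with h3 | h3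
    · exact Or.inl ⟨hp, h3, ha⟩
    · exact Or.inr ⟨hp, h3, hb⟩
  · rintro (⟨hp, h, -⟩ | ⟨hp, h, -⟩)
    · exact ⟨hp, h.trans (Nat.dvd_lcm_left a b), Nat.lcm_ne_zero ha hb⟩
    · exact ⟨hp, h.trans (Nat.dvd_lcm_right a b), Nat.lcm_ne_zero ha hb⟩

theorem PRI_lcm (D : Sys) (n n' : ℕ) (hn : n ≠ 0) (hn' : n' ≠ 0) :
    gg D.δ D.q0 (Nat.lcm n n') ≤ gg D.δ D.q0 n * gg D.δ D.q0 n' := by
  have h1 : gg D.δ D.q0 (Nat.lcm n n') *
      ∏ p ∈ n.primeFactors.filter (fun p => D.q0 ≤ p) ∩ n'.primeFactors.filter (fun p => D.q0 ≤ p), (1 + 2 * D.δ p) =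
      gg D.δ D.q0 n * gg D.δ D.q0 n' := by
    unfold gg
    rw [PRI_pf _ _ hn hn', Finset.filter_union]
    exact Finset.prod_union_inter
  rw [← h1]
  refine le_mul_of_one_le_right (le_trans zero_le_one (PRI_gg D _)) (PRI_one D _ fun p hp => ?_)
  exact (Finset.mem_filter.mp (Finset.mem_inter.mp hp).1).2

theorem PRI : PRI_stmt := by
  intro D q w hw n n' a a' hn hn' hnT hn'T hp hp'
  have hn0 : (0 : ℝ) < n := by exact_mod_cast hn
  have hn0' : (0 : ℝ) < n' := by exact_mod_cast hn'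
  have hg1 := PRI_gg D n
  have hg2 := PRI_gg D n'
  by_cases hex : ∃ x₀ : ℤ, (n : ℤ) ∣ x₀ + a ∧ (n' : ℤ) ∣ x₀ + a'
  · obtain ⟨x₀, h1, h2⟩ := hex
    have hfun : (fun x => w x * (ind n a x * ind n' a' x)) = fun x => w x * ind (Nat.lcm n n') (-x₀) x := by
      funext x
      congr 1
      unfold ind
      have e1 : (n : ℤ) ∣ x + a ↔ (n : ℤ) ∣ x + -x₀ := by
        have : x + a = (x + -x₀) + (x₀ + a) := by ring
        rw [this]
        exact dvd_add_left h1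
      have e2 : (n' : ℤ) ∣ x + a' ↔ (n' : ℤ) ∣ x + -x₀ := by
        have : x + a' = (x + -x₀) + (x₀ + a') := by ring
        rw [this]
        exact dvd_add_left h2
      have e3 : ((Nat.lcm n n' : ℕ) : ℤ) ∣ x + -x₀ ↔ (n : ℤ) ∣ x + -x₀ ∧ (n' : ℤ) ∣ x + -x₀ := by
        rw [Int.natCast_dvd, Int.natCast_dvd, Int.natCast_dvd]
        exact Nat.lcm_dvd_iff
      by_cases c1 : (n : ℤ) ∣ x + -x₀ <;> by_cases c2 : (n' : ℤ) ∣ x + -x₀ <;> simp [e1, e2, e3, c1, c2]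
    rw [hfun]
    have hlT : Nat.lcm n n' ∣ D.T := Nat.lcm_dvd hnT hn'T
    have hcls := hw.cls (Nat.lcm n n') (-x₀) hlT (by
      intro p hpl
      rw [PRI_pf _ _ (by omega) (by omega), Finset.mem_union] at hpl
      rcases hpl with h | h
      · exact hp p h
      · exact hp' p h)
    refine hcls.trans ?_
    have hl : (0 : ℝ) < (Nat.lcm n n' : ℕ) := by exact_mod_cast Nat.lcm_pos hn hn'
    have hgl : (Nat.gcd n n' : ℝ) * (Nat.lcm n n' : ℕ) = n * n' := by exact_mod_cast Nat.gcd_mul_lcm n n'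
    have hW : (0 : ℝ) ≤ D.W := Nat.cast_nonneg _
    rw [mul_div_assoc]
    refine mul_le_mul_of_nonneg_left ?_ hW
    rw [div_le_div_iff₀ hl (mul_pos hn0 hn0'), ← hgl]
    have h3 := PRI_lcm D n n' (by omega) (by omega)
    have h4 : (0 : ℝ) ≤ (Nat.gcd n n' : ℝ) * (Nat.lcm n n' : ℕ) := by positivity
    calc gg D.δ D.q0 (Nat.lcm n n') * ((Nat.gcd n n' : ℝ) * (Nat.lcm n n' : ℕ))
        ≤ (gg D.δ D.q0 n * gg D.δ D.q0 n') * ((Nat.gcd n n' : ℝ) * (Nat.lcm n n' : ℕ)) :=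
          mul_le_mul_of_nonneg_right h3 h4
      _ = gg D.δ D.q0 n * gg D.δ D.q0 n' * (Nat.gcd n n' : ℝ) * (Nat.lcm n n' : ℕ) := by ring
  · have hfun : (fun x => w x * (ind n a x * ind n' a' x)) = fun _ => 0 := by
      funext x
      have : ind n a x * ind n' a' x = 0 := by
        unfold ind
        by_cases c1 : (n : ℤ) ∣ x + a
        · have c2 : ¬ (n' : ℤ) ∣ x + a' := fun h => hex ⟨x, c1, h⟩
          rw [if_neg c2, mul_zero]
        · rw [if_neg c1, zero_mul]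
      rw [this, mul_zero]
    rw [hfun]
    unfold mu
    rw [Finset.sum_const_zero, zero_div]
    positivity

end Pool.Agent.PHN
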